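import Mathlib
import Pool.Agent.H235Z.PermDefs
import Pool.Agent.H235Z.CubeFinal

namespace Pool.Agent.Results.MP_2f48ba_co.ACubeUpper

open Pool.Agent.H235Z

/-- For every `d ≥ 1` there is `C > 0` such that for every power of two `n = 2 ^ k`, `k ≥ 1`, some
`d`-dimensional permutation of order `n` has all its empty cubes of side at most
`C (n log n)^(1/d)`. -/
theorem result (d : ℕ) (hd : 1 ≤ d) : ∃ C : ℝ, 0 < C ∧ ∀ n : ℕ, (∃ k, 1 ≤ k ∧ n = 2 ^ k) →
    ∃ A : (Fin (d + 1) → Fin n) → Bool, IsPerm A ∧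
      ∀ (s : ℕ) (T : Fin (d + 1) → Finset (Fin n)), (∀ i, (T i).card = s) → IsEmptyBox A T →
        (s : ℝ) ≤ C * ((n : ℝ) * Real.log n) ^ (1 / (d : ℝ)) :=
  cube_upper_final d hd

end Pool.Agent.Results.MP_2f48ba_co.ACubeUpper
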