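import Mathlib
import Pool.Agent.H235Z.PermDefs
import Pool.Agent.H235Z.CubeFinal

namespace Pool.Agent.Results.MP_2f48ba_co.BCubeLower

open Pool.Agent.H235Z

/-- For every `d ≥ 2` there is `c > 0` such that for all large `n` every `d`-dimensional permutation
of order `n` has an empty cube of side at least `c (n log n)^(1/d)`. -/
theorem result (d : ℕ) (hd : 2 ≤ d) : ∃ c : ℝ, 0 < c ∧ ∃ N : ℕ, ∀ n : ℕ, N ≤ n →
    ∀ A : (Fin (d + 1) → Fin n) → Bool, IsPerm A →
      ∃ (s : ℕ) (T : Fin (d + 1) → Finset (Fin n)), (∀ i, (T i).card = s) ∧ IsEmptyBox A T ∧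
        c * ((n : ℝ) * Real.log n) ^ (1 / (d : ℝ)) ≤ s :=
  cube_lower_final d hd

end Pool.Agent.Results.MP_2f48ba_co.BCubeLower
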